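import Mathlib

set_option autoImplicit false

/-! # Integral forms of bounded height: definitions -/

namespace Pool.Agent.R870.RC

open MvPolynomial

/-- the forms of degree `d` in `n + 1` variables with integer coefficients of absolute value at
most `H` -/
def Forms (n d H : ℕ) : Set (MvPolynomial (Fin (n + 1)) ℤ) :=
  {F | F.IsHomogeneous d ∧ ∀ m, |F.coeff m| ≤ H}

/-- the systems of `s` forms of degrees `d_1, …, d_s` in `n + 1` variables with integer coefficients
of absolute value at most `H` -/
def Systems (n : ℕ) {s : ℕ} (d : Fin s → ℕ) (H : ℕ) :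
    Set (Fin s → MvPolynomial (Fin (n + 1)) ℤ) := {F | ∀ i, F i ∈ Forms n (d i) H}

/-- the systems which have a common rational zero in projective `n`-space of height at most `B` -/
def WithPoint (n : ℕ) {s : ℕ} (d : Fin s → ℕ) (H B : ℕ) :
    Set (Fin s → MvPolynomial (Fin (n + 1)) ℤ) :=
  {F | F ∈ Systems n d H ∧ ∃ x : Fin (n + 1) → ℤ, x ≠ 0 ∧ (∀ j, |x j| ≤ B) ∧
    ∀ i, eval x (F i) = 0}

end Pool.Agent.R870.RC
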