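import Mathlib
import Pool.Agent.R870.RC.Defs

set_option autoImplicit false

/-! # Integral forms of bounded height: counting -/

namespace Pool.Agent.R870.RC

open MvPolynomial Finset

variable {n : ℕ}

/-- the monomials of degree `d` -/
noncomputable def Mo (n d : ℕ) : Finset (Fin (n + 1) →₀ ℕ) :=
  Finset.finsuppAntidiag (Finset.univ : Finset (Fin (n + 1))) d

theorem mem_Mo {d : ℕ} (m : Fin (n + 1) →₀ ℕ) : m ∈ Mo n d ↔ m.degree = d := by
  unfold Mo
  rw [Finset.mem_finsuppAntidiag]
  constructor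
  · rintro ⟨h, -⟩
    rw [Finsupp.degree_eq_sum]
    exact h
  · intro h
    refine ⟨?_, Finset.subset_univ _⟩
    rw [Finsupp.degree_eq_sum] at h
    exact h

/-- the form with given coefficients -/
noncomputable def Phi (n d : ℕ) (c : Mo n d → ℤ) : MvPolynomial (Fin (n + 1)) ℤ :=
  ∑ m : Mo n d, monomial m.1 (c m)

theorem coeff_Phi {d : ℕ} (c : Mo n d → ℤ) (m : Fin (n + 1) →₀ ℕ) :
    (Phi n d c).coeff m = if h : m ∈ Mo n d then c ⟨m, h⟩ else 0 := by
  classical
  unfold Phi
  rw [coeff_sum]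
  by_cases h : m ∈ Mo n d
  · rw [dif_pos h, Finset.sum_eq_single ⟨m, h⟩]
    · rw [coeff_monomial, if_pos rfl]
    · intro b _ hb
      rw [coeff_monomial, if_neg]
      intro h2
      exact hb (Subtype.ext h2)
    · intro h2
      exact absurd (Finset.mem_univ _) h2
  · rw [dif_neg h]
    refine Finset.sum_eq_zero fun b _ => ?_
    rw [coeff_monomial, if_neg]
    intro h2
    exact h (h2 ▸ b.2)

theorem Phi_hom {d : ℕ} (c : Mo n d → ℤ) : (Phi n d c).IsHomogeneous d := by
  unfold Phi
  refine MvPolynomial.IsHomogeneous.sum _ _ _ fun m _ => ?_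
  exact isHomogeneous_monomial _ ((mem_Mo _).1 m.2)

theorem Phi_inj {d : ℕ} : Function.Injective (Phi n d) := by
  intro c c' h
  funext m
  have h2 := congrArg (fun F => MvPolynomial.coeff m.1 F) h
  simp only [coeff_Phi, m.2, dif_pos] at h2
  exact h2

/-- the finset of the forms of degree `d` and height at most `H` -/
noncomputable def FF (n d H : ℕ) : Finset (MvPolynomial (Fin (n + 1)) ℤ) := by
  classical
  exact (Fintype.piFinset (fun _ : Mo n d => Finset.Icc (-(H : ℤ)) H)).image (Phi n d)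

theorem mem_FF {d H : ℕ} (F : MvPolynomial (Fin (n + 1)) ℤ) : F ∈ FF n d H ↔ F ∈ Forms n d H := by
  classical
  unfold FF Forms
  rw [Finset.mem_image]
  constructor
  · rintro ⟨c, hc, rfl⟩
    refine ⟨Phi_hom c, fun m => ?_⟩
    rw [coeff_Phi]
    by_cases h : m ∈ Mo n d
    · rw [dif_pos h, abs_le]
      exact Finset.mem_Icc.1 (Fintype.mem_piFinset.1 hc ⟨m, h⟩)
    · rw [dif_neg h, abs_zero]
      exact Nat.cast_nonneg H
  · rintro ⟨h1, h2⟩
    refine ⟨fun m => F.coeff m.1, ?_, ?_⟩
    · rw [Fintype.mem_piFinset]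
      intro m
      rw [Finset.mem_Icc, ← abs_le]
      exact h2 _
    · ext m
      rw [coeff_Phi]
      by_cases h : m ∈ Mo n d
      · rw [dif_pos h]
      · rw [dif_neg h]
        by_contra hne
        apply h
        rw [mem_Mo]
        have h3 := h1 (Ne.symm hne)
        rw [Finsupp.degree_eq_weight_one]
        exact h3

theorem card_FF (n d H : ℕ) : (FF n d H).card = (2 * H + 1) ^ (Mo n d).card := by
  classical
  unfold FF
  rw [Finset.card_image_of_injective _ Phi_inj, Fintype.card_piFinset]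
  have h : (Finset.Icc (-(H : ℤ)) H).card = 2 * H + 1 := by
    rw [Int.card_Icc]
    omega
  rw [Finset.prod_const, h, Finset.card_univ, Fintype.card_coe]

theorem card_FF_mul (n d H K : ℕ) (hK : 1 ≤ K) :
    (FF n d (K * H)).card ≤ K ^ (Mo n d).card * (FF n d H).card := by
  rw [card_FF, card_FF, ← mul_pow]
  refine Nat.pow_le_pow_left ?_ _
  nlinarith

theorem forms_add {d H K : ℕ} {F G : MvPolynomial (Fin (n + 1)) ℤ} (hF : F ∈ Forms n d H)
    (hG : G ∈ Forms n d K) : F + G ∈ Forms n d (H + K) := by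
  refine ⟨hF.1.add hG.1, fun m => ?_⟩
  rw [coeff_add]
  push_cast
  exact (abs_add_le _ _).trans (add_le_add (hF.2 m) (hG.2 m))

theorem forms_mono {d H K : ℕ} (h : H ≤ K) {F : MvPolynomial (Fin (n + 1)) ℤ}
    (hF : F ∈ Forms n d H) : F ∈ Forms n d K :=
  ⟨hF.1, fun m => (hF.2 m).trans (by exact_mod_cast h)⟩

theorem forms_X_mul {d H : ℕ} (i : Fin (n + 1)) {F : MvPolynomial (Fin (n + 1)) ℤ}
    (hF : F ∈ Forms n d H) : X i * F ∈ Forms n (d + 1) H := by
  classical
  refine ⟨?_, fun m => ?_⟩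
  · have h1 := (isHomogeneous_X ℤ i).mul hF.1
    rwa [add_comm 1 d] at h1
  · rw [coeff_X_mul']
    by_cases h : i ∈ m.support
    · rw [if_pos h]
      exact hF.2 _
    · rw [if_neg h, abs_zero]
      exact Nat.cast_nonneg H

theorem forms_monomial {d H : ℕ} (m : Fin (n + 1) →₀ ℕ) (hm : m.degree = d) (e : ℤ)
    (he : |e| ≤ H) : (monomial m e : MvPolynomial (Fin (n + 1)) ℤ) ∈ Forms n d H := by
  classical
  refine ⟨isHomogeneous_monomial _ hm, fun m' => ?_⟩
  rw [coeff_monomial]
  by_cases h : m = m'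
  · rw [if_pos h]
    exact he
  · rw [if_neg h, abs_zero]
    exact Nat.cast_nonneg H

theorem forms_sum {d H : ℕ} {ι : Type} (s : Finset ι) (F : ι → MvPolynomial (Fin (n + 1)) ℤ)
    (hF : ∀ i ∈ s, F i ∈ Forms n d H) : ∑ i ∈ s, F i ∈ Forms n d (s.card * H) := by
  classical
  induction s using Finset.induction_on with
  | empty =>
    refine ⟨by rw [Finset.sum_empty]; exact isHomogeneous_zero _ _ _, fun m => ?_⟩
    simp
  | insert i s hi ih =>
    rw [Finset.sum_insert hi, Finset.card_insert_of_notMem hi]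
    have h1 := forms_add (hF i (Finset.mem_insert_self _ _))
      (ih fun j hj => hF j (Finset.mem_insert_of_mem hj))
    have e : H + s.card * H = (s.card + 1) * H := by ring
    rwa [e] at h1

/-- the basic inequality -/
theorem count_mul {d H K : ℕ} (x : Fin (n + 1) → ℤ) (T : Finset ℤ)
    (hT : ∀ t ∈ T, ∃ G ∈ Forms n d K, eval x G = t) (t0 : ℤ) :
    ((FF n d H).filter (fun F => eval x F = t0)).card * T.card ≤ (FF n d (H + K)).card := by
  classical
  choose! G hG1 hG2 using hT
  rw [← Finset.card_product]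
  refine Finset.card_le_card_of_injOn (fun p => p.1 + G p.2) ?_ ?_
  · rintro ⟨F, t⟩ hp
    rw [Finset.mem_coe, Finset.mem_product, Finset.mem_filter, mem_FF] at hp
    rw [Finset.mem_coe, mem_FF]
    exact forms_add hp.1.1 (hG1 t hp.2)
  · rintro ⟨F, t⟩ hp ⟨F', t'⟩ hp' h
    rw [Finset.mem_coe, Finset.mem_product, Finset.mem_filter, mem_FF] at hp hp'
    have h : F + G t = F' + G t' := h
    have h2 := congrArg (eval x) h
    rw [map_add, map_add, hp.1.2, hp'.1.2, hG2 t hp.2, hG2 t' hp'.2] at h2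
    have h3 : t = t' := add_left_cancel h2
    subst h3
    have h4 : F = F' := add_right_cancel h
    rw [h4]

end Pool.Agent.R870.RC
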