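import Mathlib
import Pool.Agent.R870.RC.Basic

set_option autoImplicit false

/-! # The number of forms with a given value at a point -/

namespace Pool.Agent.R870.RC

open MvPolynomial Finset

variable {n : ℕ}

/-- residues modulo the largest coordinate -/
theorem residues (x : Fin (n + 1) → ℤ) (a : Fin (n + 1) → ℤ) (ha : ∑ i, a i * x i = 1)
    (i0 : Fin (n + 1)) (h0 : x i0 ≠ 0) (H : ℕ)
    (hH : ∀ i, |x i0| ≤ H * Int.gcd (x i0) (x i)) (d : ℕ) (hd : 1 ≤ d) (t : ℤ) :
    ∃ e : Fin (n + 1) → ℤ, (∀ i, |e i| ≤ H) ∧ x i0 ∣ t - ∑ i, e i * x i ^ d := by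
  -- the powers generate the unit ideal
  obtain ⟨c, hc⟩ : ∃ c : Fin (n + 1) → ℤ, ∑ i, c i * x i ^ d = 1 := by
    have h1 : Ideal.span (Set.range x) = ⊤ := by
      rw [Ideal.eq_top_iff_one, Ideal.mem_span_range_iff_exists_fun]
      exact ⟨a, ha⟩
    have h2 := Ideal.span_pow_eq_top (Set.range x) h1 d
    rw [Ideal.eq_top_iff_one, ← Set.range_comp, Ideal.mem_span_range_iff_exists_fun] at h2
    exact h2
  have hg : ∀ i, 0 < Int.gcd (x i0) (x i) := fun i => Int.gcd_pos_of_ne_zero_left _ h0
  -- the orders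
  choose h hh using fun i => Int.gcd_dvd_left (x i0) (x i)
  have hh0 : ∀ i, h i ≠ 0 := by
    intro i h1
    apply h0
    rw [hh i, h1, mul_zero]
  have hhH : ∀ i, |h i| ≤ H := by
    intro i
    have h1 := hH i
    have h2 : |x i0| = Int.gcd (x i0) (x i) * |h i| := by
      conv_lhs => rw [hh i]
      rw [abs_mul, Nat.abs_cast]
    rw [h2, mul_comm] at h1
    have h3 : (0 : ℤ) < Int.gcd (x i0) (x i) := by exact_mod_cast hg i
    exact le_of_mul_le_mul_right h1 h3
  have hdvd : ∀ i, x i0 ∣ h i * x i ^ d := by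
    intro i
    obtain ⟨y, hy⟩ := Int.gcd_dvd_right (x i0) (x i)
    obtain ⟨d', rfl⟩ : ∃ d', d = d' + 1 := ⟨d - 1, by omega⟩
    refine ⟨y * x i ^ d', ?_⟩
    calc h i * x i ^ (d' + 1) = h i * (Int.gcd (x i0) (x i) * y) * x i ^ d' := by
          rw [pow_succ]
          nth_rewrite 2 [hy]
          ring
      _ = (Int.gcd (x i0) (x i) * h i) * y * x i ^ d' := by ring
      _ = x i0 * (y * x i ^ d') := by rw [← hh i]; ring
  refine ⟨fun i => (t * c i) % h i, fun i => ?_, ?_⟩
  · show |t * c i % h i| ≤ H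
    rw [abs_of_nonneg (Int.emod_nonneg _ (hh0 i))]
    exact (Int.emod_lt_abs _ (hh0 i)).le.trans (hhH i)
  · have h1 : t - ∑ i, (t * c i) % h i * x i ^ d =
        ∑ i, (t * c i / h i) * (h i * x i ^ d) := by
      have h2 : t = ∑ i, t * c i * x i ^ d := by
        simp only [mul_assoc]
        rw [← Finset.mul_sum, hc, mul_one]
      have h5 : t - ∑ i, (t * c i) % h i * x i ^ d =
          ∑ i, t * c i * x i ^ d - ∑ i, (t * c i) % h i * x i ^ d := by rw [← h2]
      rw [h5, ← Finset.sum_sub_distrib]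
      refine Finset.sum_congr rfl fun i _ => ?_
      have h3 := Int.emod_add_mul_ediv (t * c i) (h i)
      have h4 : t * c i * x i ^ d = (t * c i % h i + h i * (t * c i / h i)) * x i ^ d := by
        rw [h3]
      rw [h4]
      ring
    show x i0 ∣ t - ∑ i, (t * c i) % h i * x i ^ d
    rw [h1]
    exact Finset.dvd_sum fun i _ => (hdvd i).mul_left _

/-- **Case A**: all small values are attained. -/
theorem rep (x : Fin (n + 1) → ℤ) (a : Fin (n + 1) → ℤ) (ha : ∑ i, a i * x i = 1)
    (i0 : Fin (n + 1)) (h0 : x i0 ≠ 0) (hmax : ∀ i, |x i| ≤ |x i0|) (H : ℕ)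
    (hH : ∀ i, |x i0| ≤ H * Int.gcd (x i0) (x i)) (d : ℕ) :
    ∀ (L : ℕ) (t : ℤ), |t| ≤ L * H * |x i0| ^ d →
      ∃ F ∈ Forms n d ((L + 2 * d * (n + 1)) * H), eval x F = t := by
  classical
  induction d with
  | zero =>
    intro L t ht
    refine ⟨C t, ⟨isHomogeneous_C _ _, fun m => ?_⟩, by rw [eval_C]⟩
    rw [coeff_C]
    by_cases h : 0 = m
    · rw [if_pos h]
      simpa using ht
    · rw [if_neg h, abs_zero]
      positivity
  | succ d ih =>
    intro L t ht
    obtain ⟨e, he1, he2⟩ := residues x a ha i0 h0 H hH (d + 1) (by omega) t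
    obtain ⟨t1, ht1⟩ := he2
    have hx0 : 0 < |x i0| := abs_pos.2 h0
    have hsum : |∑ i, e i * x i ^ (d + 1)| ≤ (n + 1) * H * |x i0| ^ (d + 1) := by
      refine (Finset.abs_sum_le_sum_abs _ _).trans ?_
      have h1 : ∀ i ∈ (Finset.univ : Finset (Fin (n + 1))),
          |e i * x i ^ (d + 1)| ≤ H * |x i0| ^ (d + 1) := by
        intro i _
        rw [abs_mul, abs_pow]
        exact mul_le_mul (he1 i) (pow_le_pow_left₀ (abs_nonneg _) (hmax i) _) (by positivity)
          (Nat.cast_nonneg H)
      refine (Finset.sum_le_sum h1).trans ?_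
      rw [Finset.sum_const, Finset.card_univ, Fintype.card_fin, nsmul_eq_mul]
      push_cast
      exact le_of_eq (by ring)
    have ht1b : |t1| ≤ ((L + (n + 1) : ℕ) : ℤ) * H * |x i0| ^ d := by
      have h1 : |x i0| * |t1| ≤ |x i0| * (((L + (n + 1) : ℕ) : ℤ) * H * |x i0| ^ d) := by
        rw [← abs_mul, ← ht1]
        refine (abs_sub _ _).trans ?_
        have h2 : |x i0| * (((L + (n + 1) : ℕ) : ℤ) * H * |x i0| ^ d) =
            L * H * |x i0| ^ (d + 1) + (n + 1) * H * |x i0| ^ (d + 1) := by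
          push_cast
          ring
        rw [h2]
        exact add_le_add ht hsum
      exact le_of_mul_le_mul_left h1 hx0
    obtain ⟨F1, hF1, hF1x⟩ := ih (L + (n + 1)) t1 ht1b
    refine ⟨∑ i, monomial (Finsupp.single i (d + 1)) (e i) + X i0 * F1, ?_, ?_⟩
    · have h1 : ∑ i, monomial (Finsupp.single i (d + 1)) (e i) ∈ Forms n (d + 1) ((n + 1) * H) := by
        have h2 := forms_sum (Finset.univ : Finset (Fin (n + 1)))
          (fun i => (monomial (Finsupp.single i (d + 1)) (e i) : MvPolynomial (Fin (n + 1)) ℤ))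
          (d := d + 1) (H := H) (fun i _ => forms_monomial _ (by simp) _ (he1 i))
        rwa [Finset.card_univ, Fintype.card_fin] at h2
      have h3 := forms_add h1 (forms_X_mul i0 hF1)
      have h4 : (n + 1) * H + (L + (n + 1) + 2 * d * (n + 1)) * H =
          (L + 2 * (d + 1) * (n + 1)) * H := by ring
      rwa [h4] at h3
    · rw [map_add, map_sum, map_mul, eval_X, hF1x]
      have h1 : ∀ i, eval x (monomial (Finsupp.single i (d + 1)) (e i)) = e i * x i ^ (d + 1) := by
        intro i
        rw [eval_monomial, Finsupp.prod_single_index]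
        exact pow_zero _
      simp only [h1]
      linear_combination -ht1

/-- binary forms with a zero of large height -/
theorem bin (a b : ℤ) (hab : IsCoprime a b) (H : ℕ) (ha : (H : ℤ) < |a|) (d : ℕ) :
    ∀ f : ℕ → ℤ, (∀ j ≤ d, |f j| ≤ H) →
      ∑ j ∈ Finset.range (d + 1), f j * a ^ (d - j) * b ^ j = 0 → ∀ j ≤ d, f j = 0 := by
  have ha0 : a ≠ 0 := by
    rintro rfl
    rw [abs_zero] at ha
    have : (0 : ℤ) ≤ H := Nat.cast_nonneg H
    omega
  induction d with
  | zero =>
    intro f _ h j hj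
    have : j = 0 := by omega
    subst this
    simpa using h
  | succ d ih =>
    intro f hf h
    rw [Finset.sum_range_succ] at h
    have h1 : ∑ j ∈ Finset.range (d + 1), f j * a ^ (d + 1 - j) * b ^ j =
        a * ∑ j ∈ Finset.range (d + 1), f j * a ^ (d - j) * b ^ j := by
      rw [Finset.mul_sum]
      refine Finset.sum_congr rfl fun j hj => ?_
      have h2 : d + 1 - j = (d - j) + 1 := by
        have := Finset.mem_range.1 hj
        omega
      rw [h2, pow_succ]
      ring
    rw [h1, Nat.sub_self, pow_zero, mul_one] at h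
    have h2 : a ∣ f (d + 1) * b ^ (d + 1) := by
      refine ⟨-∑ j ∈ Finset.range (d + 1), f j * a ^ (d - j) * b ^ j, ?_⟩
      linear_combination h
    have h3 : a ∣ f (d + 1) := (hab.pow_right).dvd_of_dvd_mul_right h2
    have h4 : f (d + 1) = 0 :=
      Int.eq_zero_of_abs_lt_dvd ((abs_dvd _ _).2 h3) (lt_of_le_of_lt (hf _ le_rfl) ha)
    rw [h4, zero_mul, add_zero] at h
    have h5 := (mul_eq_zero.1 h).resolve_left ha0
    intro j hj
    rcases Nat.lt_or_ge j (d + 1) with h6 | h6
    · exact ih f (fun j hj => hf j (by omega)) h5 j (by omega)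
    · have : j = d + 1 := by omega
      rw [this]
      exact h4

/-- **Case B**: many values of binary forms. -/
theorem bin_values (x : Fin (n + 1) → ℤ) (i0 i1 : Fin (n + 1)) (h0 : x i0 ≠ 0) (H : ℕ)
    (hH : (H : ℤ) * Int.gcd (x i0) (x i1) < |x i0|) (d : ℕ) :
    ∃ T : Finset ℤ, T.card = (H + 1) ^ (d + 1) ∧
      ∀ t ∈ T, ∃ G ∈ Forms n d ((d + 1) * H), eval x G = t := by
  classical
  let g : ℤ := Int.gcd (x i0) (x i1)
  have hg : 0 < g := by
    have := Int.gcd_pos_of_ne_zero_left (x i1) h0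
    show (0 : ℤ) < Int.gcd (x i0) (x i1)
    exact_mod_cast this
  obtain ⟨a, ha⟩ := Int.gcd_dvd_left (x i0) (x i1)
  obtain ⟨b, hb⟩ := Int.gcd_dvd_right (x i0) (x i1)
  have ha : x i0 = g * a := ha
  have hb : x i1 = g * b := hb
  have hab : IsCoprime a b := by
    have h1 : g * Int.gcd a b = g * 1 := by
      have h2 : (Int.gcd (x i0) (x i1) : ℤ) = Int.gcd (g * a) (g * b) := by rw [← ha, ← hb]
      rw [Int.gcd_mul_left] at h2
      push_cast at h2
      rw [abs_of_pos hg] at h2
      rw [mul_one]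
      exact h2.symm
    have h3 := mul_left_cancel₀ hg.ne' h1
    rw [Int.isCoprime_iff_gcd_eq_one]
    exact_mod_cast h3
  have haH : (H : ℤ) < |a| := by
    have h1 : |x i0| = g * |a| := by rw [ha, abs_mul, abs_of_pos hg]
    have h2 : (H : ℤ) * g < g * |a| := by rw [← h1]; exact hH
    rw [mul_comm] at h2
    exact lt_of_mul_lt_mul_left h2 hg.le
  let val : (Fin (d + 1) → ℤ) → ℤ := fun e => ∑ j : Fin (d + 1), e j * x i0 ^ (d - j) * x i1 ^ (j : ℕ)
  let E : Finset (Fin (d + 1) → ℤ) := Fintype.piFinset fun _ => Finset.Icc (0 : ℤ) H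
  have hinj : Set.InjOn val E := by
    intro e he e' he' h
    have he : e ∈ E := he
    have he' : e' ∈ E := he'
    rw [Fintype.mem_piFinset] at he he'
    let f : ℕ → ℤ := fun j => if h : j < d + 1 then e ⟨j, h⟩ - e' ⟨j, h⟩ else 0
    have hf : ∀ j ≤ d, |f j| ≤ H := by
      intro j hj
      have hj' : j < d + 1 := by omega
      have h1 : f j = e ⟨j, hj'⟩ - e' ⟨j, hj'⟩ := dif_pos hj'
      have h2 := Finset.mem_Icc.1 (he ⟨j, hj'⟩)
      have h3 := Finset.mem_Icc.1 (he' ⟨j, hj'⟩)
      rw [h1, abs_le]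
      constructor <;> omega
    have hsum : ∑ j ∈ Finset.range (d + 1), f j * a ^ (d - j) * b ^ j = 0 := by
      have h1 : val e - val e' = g ^ d * ∑ j ∈ Finset.range (d + 1), f j * a ^ (d - j) * b ^ j := by
        show ∑ j : Fin (d + 1), e j * x i0 ^ (d - j) * x i1 ^ (j : ℕ) -
          ∑ j : Fin (d + 1), e' j * x i0 ^ (d - j) * x i1 ^ (j : ℕ) = _
        rw [← Finset.sum_sub_distrib, Finset.sum_range, Finset.mul_sum]
        refine Finset.sum_congr rfl fun j _ => ?_
        have h2 : f j = e j - e' j := dif_pos j.2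
        have h3 : g ^ d = g ^ (d - j) * g ^ (j : ℕ) := by
          rw [← pow_add]
          congr 1
          have := j.2
          omega
        rw [h2, h3, ha, hb, mul_pow, mul_pow]
        ring
      rw [show val e = val e' from h, sub_self] at h1
      exact (mul_eq_zero.1 h1.symm).resolve_left (pow_ne_zero _ hg.ne')
    have hz := bin a b hab H haH d f hf hsum
    funext j
    have h1 := hz j (by have := j.2; omega)
    have h2 : f j = e j - e' j := dif_pos j.2
    rw [h2] at h1
    linarith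
  refine ⟨E.image val, ?_, ?_⟩
  · rw [Finset.card_image_of_injOn hinj, Fintype.card_piFinset, Finset.prod_const,
      Finset.card_univ, Fintype.card_fin]
    congr 1
    rw [Int.card_Icc]
    omega
  · intro t ht
    obtain ⟨e, he, rfl⟩ := Finset.mem_image.1 ht
    rw [Fintype.mem_piFinset] at he
    refine ⟨∑ j : Fin (d + 1), monomial (Finsupp.single i0 (d - j) + Finsupp.single i1 (j : ℕ)) (e j),
      ?_, ?_⟩
    · have h2 := forms_sum (Finset.univ : Finset (Fin (d + 1)))
        (fun j => (monomial (Finsupp.single i0 (d - j) + Finsupp.single i1 (j : ℕ)) (e j) :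
          MvPolynomial (Fin (n + 1)) ℤ))
        (d := d) (H := H) (fun j _ => forms_monomial _ (by
          rw [map_add, Finsupp.degree_single, Finsupp.degree_single]
          have := j.2
          omega) _ (by
            have h3 := Finset.mem_Icc.1 (he j)
            rw [abs_of_nonneg h3.1]
            exact h3.2))
      rwa [Finset.card_univ, Fintype.card_fin] at h2
    · rw [map_sum]
      refine Finset.sum_congr rfl fun j _ => ?_
      rw [eval_monomial, Finsupp.prod_add_index', Finsupp.prod_single_index,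
        Finsupp.prod_single_index]
      · ring
      · exact pow_zero _
      · exact pow_zero _
      · intro i; exact pow_zero _
      · intro i a b; exact pow_add _ _ _

end Pool.Agent.R870.RC
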