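import Mathlib
import Pool.Agent.R870.RC.Point

set_option autoImplicit false

/-! # The number of forms with a given value at a point: uniform bound, boxes of points -/

namespace Pool.Agent.R870.RC

open MvPolynomial Finset

variable {n : ℕ}

/-- `x` is primitive and its coordinate `i0` has the largest absolute value `b` -/
def Prim (x : Fin (n + 1) → ℤ) (i0 : Fin (n + 1)) (b : ℕ) : Prop :=
  (∃ a : Fin (n + 1) → ℤ, ∑ i, a i * x i = 1) ∧ |x i0| = b ∧ 1 ≤ b ∧ ∀ i, |x i| ≤ b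

/-- the constant -/
noncomputable def cst (n d : ℕ) : ℕ := (2 + 2 * d * (n + 1)) ^ (Mo n d).card

theorem count_nat (d H : ℕ) (x : Fin (n + 1) → ℤ) (i0 : Fin (n + 1)) (b : ℕ)
    (hx : Prim x i0 b) (t0 : ℤ) :
    ((FF n d H).filter (fun F => eval x F = t0)).card * (H * min b H ^ d) ≤
      cst n d * (FF n d H).card := by
  classical
  obtain ⟨⟨a, ha⟩, hb, hb1, hmax⟩ := hx
  have h0 : x i0 ≠ 0 := by
    intro h
    rw [h, abs_zero] at hb
    have : (b : ℤ) = 0 := hb.symm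
    omega
  by_cases hA : ∀ i, |x i0| ≤ H * Int.gcd (x i0) (x i)
  · have hrep := rep x a ha i0 h0 (by rw [hb]; exact hmax) H hA d 1
    have hT : ∀ t ∈ Finset.Icc (-((H * b ^ d : ℕ) : ℤ)) ((H * b ^ d : ℕ) : ℤ),
        ∃ G ∈ Forms n d ((1 + 2 * d * (n + 1)) * H), eval x G = t := by
      intro t ht
      refine hrep t ?_
      rw [Finset.mem_Icc, ← abs_le] at ht
      rw [hb]
      push_cast at ht ⊢
      linarith
    have h1 := count_mul (H := H) x _ hT t0
    have h2 : H + (1 + 2 * d * (n + 1)) * H = (2 + 2 * d * (n + 1)) * H := by ring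
    rw [h2] at h1
    have h3 := card_FF_mul n d H (2 + 2 * d * (n + 1)) (by omega)
    refine le_trans ?_ (h1.trans h3)
    refine Nat.mul_le_mul_left _ ?_
    rw [Int.card_Icc]
    have h4 : H * min b H ^ d ≤ H * b ^ d :=
      Nat.mul_le_mul_left _ (Nat.pow_le_pow_left (min_le_left _ _) _)
    omega
  · push Not at hA
    obtain ⟨i1, hi1⟩ := hA
    obtain ⟨T, hT1, hT2⟩ := bin_values x i0 i1 h0 H hi1 d
    have h1 := count_mul (H := H) x T hT2 t0
    have h2 : H + (d + 1) * H = (d + 2) * H := by ring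
    rw [h2, hT1] at h1
    have h3 := card_FF_mul n d H (d + 2) (by omega)
    have h4 : (d + 2) ^ (Mo n d).card ≤ cst n d := by
      refine Nat.pow_le_pow_left ?_ _
      nlinarith
    refine le_trans ?_ (h1.trans (h3.trans (Nat.mul_le_mul_right _ h4)))
    refine Nat.mul_le_mul_left _ ?_
    rw [pow_succ, mul_comm]
    refine Nat.mul_le_mul ?_ (by omega)
    exact Nat.pow_le_pow_left ((min_le_right _ _).trans (by omega)) _

/-- every nonzero integral vector is a multiple of a primitive one -/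
theorem exists_prim (x : Fin (n + 1) → ℤ) (hx : x ≠ 0) (B : ℕ) (hB : ∀ i, |x i| ≤ B) :
    ∃ (g : ℤ) (y : Fin (n + 1) → ℤ) (i0 : Fin (n + 1)) (b : ℕ), g ≠ 0 ∧
      (∀ i, x i = g * y i) ∧ Prim y i0 b ∧ b ≤ B := by
  classical
  obtain ⟨g, hg⟩ : ∃ g : ℤ, Ideal.span (Set.range x) = Ideal.span {g} :=
    (IsPrincipalIdealRing.principal (Ideal.span (Set.range x))).principal
  have hdiv : ∀ i, g ∣ x i := by
    intro i
    rw [← Ideal.mem_span_singleton, ← hg]
    exact Ideal.subset_span ⟨i, rfl⟩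
  choose y hy using hdiv
  have hg0 : g ≠ 0 := by
    rintro rfl
    apply hx
    funext i
    rw [hy i, zero_mul, Pi.zero_apply]
  obtain ⟨a, ha⟩ : ∃ a : Fin (n + 1) → ℤ, ∑ i, a i * x i = g := by
    have h1 : g ∈ Ideal.span (Set.range x) := by
      rw [hg]
      exact Ideal.mem_span_singleton_self g
    rwa [Ideal.mem_span_range_iff_exists_fun] at h1
  have ha1 : ∑ i, a i * y i = 1 := by
    apply mul_left_cancel₀ hg0
    rw [mul_one, Finset.mul_sum]
    rw [← ha]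
    conv_rhs => rw [ha]
    rw [← ha]
    refine Finset.sum_congr rfl fun i _ => ?_
    rw [ha, hy i]
    ring
  obtain ⟨i0, -, hi0⟩ := Finset.exists_max_image (Finset.univ : Finset (Fin (n + 1)))
    (fun i => |y i|) ⟨0, Finset.mem_univ _⟩
  have hyB : ∀ i, |y i| ≤ |x i| := by
    intro i
    rw [hy i, abs_mul]
    have h1 : 1 ≤ |g| := Int.one_le_abs hg0
    nlinarith [abs_nonneg (y i)]
  refine ⟨g, y, i0, (y i0).natAbs, hg0, hy, ⟨⟨a, ha1⟩, ?_, ?_, ?_⟩, ?_⟩
  · exact (Int.natCast_natAbs _).symm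
  · by_contra h
    have h1 : (y i0).natAbs = 0 := by omega
    have h2 : y i0 = 0 := Int.natAbs_eq_zero.1 h1
    have h3 : ∀ i, y i = 0 := by
      intro i
      have h4 := hi0 i (Finset.mem_univ i)
      rw [h2, abs_zero] at h4
      exact abs_eq_zero.1 (le_antisymm h4 (abs_nonneg _))
    rw [Finset.sum_eq_zero (fun i _ => by rw [h3 i, mul_zero])] at ha1
    exact zero_ne_one ha1
  · intro i
    rw [Int.natCast_natAbs]
    exact hi0 i (Finset.mem_univ i)
  · have h1 := (hyB i0).trans (hB i0)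
    have h2 : ((y i0).natAbs : ℤ) ≤ B := by rw [Int.natCast_natAbs]; exact h1
    exact_mod_cast h2

/-- the box of the vectors with `|x i0| = b` and `|x i| ≤ b` -/
noncomputable def Bx (n : ℕ) (i0 : Fin (n + 1)) (b : ℕ) : Finset (Fin (n + 1) → ℤ) :=
  Fintype.piFinset fun i => if i = i0 then {(b : ℤ), -(b : ℤ)} else Finset.Icc (-(b : ℤ)) b

theorem mem_Bx {i0 : Fin (n + 1)} {b : ℕ} {x : Fin (n + 1) → ℤ} (h : Prim x i0 b) :
    x ∈ Bx n i0 b := by
  obtain ⟨-, hb, -, hmax⟩ := h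
  unfold Bx
  rw [Fintype.mem_piFinset]
  intro i
  by_cases hi : i = i0
  · rw [if_pos hi, hi, Finset.mem_insert, Finset.mem_singleton]
    exact (abs_eq (Nat.cast_nonneg b)).1 hb
  · rw [if_neg hi, Finset.mem_Icc, ← abs_le]
    exact hmax i

theorem card_Bx (i0 : Fin (n + 1)) (b : ℕ) (hb : 1 ≤ b) : (Bx n i0 b).card ≤ 2 * (3 * b) ^ n := by
  classical
  unfold Bx
  rw [Fintype.card_piFinset, ← Finset.mul_prod_erase _ _ (Finset.mem_univ i0), if_pos rfl]
  refine Nat.mul_le_mul (Finset.card_le_two) ?_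
  have h1 : ∀ i ∈ (Finset.univ : Finset (Fin (n + 1))).erase i0,
      (if i = i0 then ({(b : ℤ), -(b : ℤ)} : Finset ℤ) else Finset.Icc (-(b : ℤ)) b).card ≤ 3 * b := by
    intro i hi
    rw [if_neg (Finset.ne_of_mem_erase hi), Int.card_Icc]
    omega
  refine (Finset.prod_le_prod' h1).trans ?_
  rw [Finset.prod_const, Finset.card_erase_of_mem (Finset.mem_univ _), Finset.card_univ,
    Fintype.card_fin]
  exact le_of_eq rfl

/-- the sum over the points -/
theorem sum_points (n D H B : ℕ) (hD : n + 2 ≤ D) (hH : 1 ≤ H) :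
    ∑ b ∈ Finset.Icc 1 B, (2 * (3 * b) ^ n : ℝ) / (min b H : ℕ) ^ D ≤
      4 * 3 ^ n * (1 + (B : ℝ) ^ (n + 1) / (H : ℝ) ^ D) := by
  have hHr : (1 : ℝ) ≤ H := by exact_mod_cast hH
  have key : ∀ b ∈ Finset.Icc 1 B, (2 * (3 * b) ^ n : ℝ) / (min b H : ℕ) ^ D ≤
      2 * 3 ^ n * (1 / (b : ℝ) ^ 2 + (B : ℝ) ^ n / (H : ℝ) ^ D) := by
    intro b hb
    obtain ⟨hb1, hb2⟩ := Finset.mem_Icc.1 hb
    have hbr : (1 : ℝ) ≤ b := by exact_mod_cast hb1
    have hbB : (b : ℝ) ≤ B := by exact_mod_cast hb2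
    rcases le_total b H with h | h
    · rw [min_eq_left h]
      have h1 : (2 * (3 * (b : ℝ)) ^ n) / (b : ℝ) ^ D ≤ 2 * 3 ^ n * (1 / (b : ℝ) ^ 2) := by
        rw [mul_pow, div_le_iff₀ (by positivity)]
        have h2 : (b : ℝ) ^ (n + 2) ≤ (b : ℝ) ^ D := pow_le_pow_right₀ hbr hD
        have h3 : 2 * 3 ^ n * (1 / (b : ℝ) ^ 2) * (b : ℝ) ^ (n + 2) = 2 * (3 ^ n * (b : ℝ) ^ n) := by
          field_simp
          ring
        rw [← h3]
        exact mul_le_mul_of_nonneg_left h2 (by positivity)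
      have h4 : 0 ≤ (B : ℝ) ^ n / (H : ℝ) ^ D := by positivity
      refine h1.trans (mul_le_mul_of_nonneg_left (by linarith) (by positivity))
    · rw [min_eq_right h]
      have h1 : (2 * (3 * (b : ℝ)) ^ n) / (H : ℝ) ^ D ≤ 2 * 3 ^ n * ((B : ℝ) ^ n / (H : ℝ) ^ D) := by
        rw [mul_pow, ← mul_div_assoc]
        refine div_le_div_of_nonneg_right ?_ (by positivity)
        have h2 : (b : ℝ) ^ n ≤ (B : ℝ) ^ n := pow_le_pow_left₀ (by positivity) hbB n
        nlinarith [pow_pos (show (0 : ℝ) < 3 by norm_num) n]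
      have h4 : 0 ≤ 1 / (b : ℝ) ^ 2 := by positivity
      refine h1.trans (mul_le_mul_of_nonneg_left (by linarith) (by positivity))
  refine (Finset.sum_le_sum key).trans ?_
  rw [← Finset.mul_sum, Finset.sum_add_distrib, Finset.sum_const, Nat.card_Icc,
    Nat.add_sub_cancel, nsmul_eq_mul]
  have hsq : ∀ B : ℕ, ∑ b ∈ Finset.Icc 1 (B + 1), 1 / (b : ℝ) ^ 2 ≤ 2 - 1 / ((B : ℝ) + 1) := by
    intro B
    induction B with
    | zero => simp; norm_num
    | succ B ih =>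
      rw [Finset.sum_Icc_succ_top (by omega)]
      have hB0 : (0 : ℝ) ≤ B := Nat.cast_nonneg B
      push_cast
      have h3 : 1 / ((B : ℝ) + 1) - 1 / ((B : ℝ) + 1 + 1) =
          1 / (((B : ℝ) + 1) * ((B : ℝ) + 1 + 1)) := by
        field_simp
        ring
      have h4 : 1 / ((B : ℝ) + 1 + 1) ^ 2 ≤ 1 / (((B : ℝ) + 1) * ((B : ℝ) + 1 + 1)) := by
        refine one_div_le_one_div_of_le (by positivity) ?_
        nlinarith
      linarith
  have h5 : ∑ b ∈ Finset.Icc 1 B, 1 / (b : ℝ) ^ 2 ≤ 2 := by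
    rcases Nat.eq_zero_or_pos B with h | h
    · subst h
      simp
    · obtain ⟨B', rfl⟩ : ∃ B', B = B' + 1 := ⟨B - 1, by omega⟩
      have h1 := hsq B'
      have h2 : (0 : ℝ) ≤ 1 / ((B' : ℝ) + 1) := by positivity
      linarith
  have h7 : (B : ℝ) * ((B : ℝ) ^ n / (H : ℝ) ^ D) = (B : ℝ) ^ (n + 1) / (H : ℝ) ^ D := by
    rw [pow_succ]
    ring
  have h8 : 0 ≤ (B : ℝ) ^ (n + 1) / (H : ℝ) ^ D := by positivity
  rw [h7]
  have h9 : (0 : ℝ) < 2 * 3 ^ n := by positivity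
  nlinarith

end Pool.Agent.R870.RC
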