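import Mathlib
import Pool.Agent.R870.RC.Count

set_option autoImplicit false

/-! # Random complete intersections -/

namespace Pool.Agent.R870.RC

open MvPolynomial Finset

variable {n : ℕ}

theorem count_real (d H : ℕ) (hH : 1 ≤ H) (x : Fin (n + 1) → ℤ) (i0 : Fin (n + 1)) (b : ℕ)
    (hx : Prim x i0 b) (t0 : ℤ) :
    (((FF n d H).filter (fun F => eval x F = t0)).card : ℝ) ≤
      cst n d * (FF n d H).card / (H * ((min b H : ℕ) : ℝ) ^ d) := by
  have h1 := count_nat d H x i0 b hx t0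
  have hb : 1 ≤ min b H := le_min hx.2.2.1 hH
  have hHr : (0 : ℝ) < H := by exact_mod_cast hH
  have hbr : (0 : ℝ) < ((min b H : ℕ) : ℝ) := by exact_mod_cast hb
  rw [le_div_iff₀ (by positivity)]
  have h2 : ((((FF n d H).filter (fun F => eval x F = t0)).card * (H * min b H ^ d) : ℕ) : ℝ) ≤
    ((cst n d * (FF n d H).card : ℕ) : ℝ) := by exact_mod_cast h1
  push_cast at h2 ⊢
  exact h2

/-- the bad systems -/
noncomputable def bad (n : ℕ) {s : ℕ} (d : Fin s → ℕ) (H B : ℕ) :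
    Finset (Fin s → MvPolynomial (Fin (n + 1)) ℤ) := by
  classical
  exact (Finset.univ : Finset (Fin (n + 1))).biUnion fun i0 => (Finset.Icc 1 B).biUnion fun b =>
    ((Bx n i0 b).filter (fun x => Prim x i0 b)).biUnion fun x =>
      Fintype.piFinset fun i => (FF n (d i) H).filter (fun F => eval x F = 0)

theorem mem_bad {s : ℕ} (d : Fin s → ℕ) (H B : ℕ) (F : Fin s → MvPolynomial (Fin (n + 1)) ℤ)
    (hF : ∀ i, F i ∈ Forms n (d i) H) (x : Fin (n + 1) → ℤ) (hx : x ≠ 0)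
    (hB : ∀ j, |x j| ≤ B) (h0 : ∀ i, eval x (F i) = 0) : F ∈ bad n d H B := by
  classical
  obtain ⟨g, y, i0, b, hg, hxy, hy, hb⟩ := exists_prim x hx B hB
  unfold bad
  simp only [Finset.mem_biUnion, Finset.mem_univ, true_and, Finset.mem_Icc, Finset.mem_filter,
    Fintype.mem_piFinset]
  refine ⟨i0, b, ⟨hy.2.2.1, hb⟩, y, ⟨mem_Bx hy, hy⟩, fun i => ⟨(mem_FF _).2 (hF i), ?_⟩⟩
  have h1 : eval x (F i) = g ^ d i * eval y (F i) := by
    have h2 : x = fun j => g * y j := funext hxy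
    rw [h2, MvPolynomial.eval_eq', MvPolynomial.eval_eq', Finset.mul_sum]
    refine Finset.sum_congr rfl fun m hm => ?_
    have h3 : ∑ j, m j = d i := by
      have h4 := (hF i).1 (MvPolynomial.mem_support_iff.1 hm)
      rw [← h4, Finsupp.weight_apply, Finsupp.sum_fintype _ _ (by simp)]
      simp
    simp only [mul_pow, Finset.prod_mul_distrib, Finset.prod_pow_eq_pow_sum, h3]
    ring
  rw [h0] at h1
  exact (mul_eq_zero.1 h1.symm).resolve_left (pow_ne_zero _ hg)

theorem card_bad {s : ℕ} (d : Fin s → ℕ) (hd : n + 2 ≤ ∑ i, d i) (H B : ℕ) (hH : 1 ≤ H) :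
    ((bad n d H B).card : ℝ) ≤ ((n + 1) * (4 * 3 ^ n) * ∏ i, (cst n (d i) : ℝ)) *
      (1 / (H : ℝ) ^ s) * (1 + (B : ℝ) ^ (n + 1) / (H : ℝ) ^ (∑ i, d i)) *
      ∏ i, ((FF n (d i) H).card : ℝ) := by
  classical
  have hHr : (1 : ℝ) ≤ H := by exact_mod_cast hH
  have h1 : ((bad n d H B).card : ℝ) ≤ ∑ _i0 : Fin (n + 1), ∑ b ∈ Finset.Icc 1 B,
      (2 * (3 * b) ^ n : ℝ) / ((min b H : ℕ) : ℝ) ^ (∑ i, d i) *
        ((∏ i, (cst n (d i) : ℝ)) * (∏ i, ((FF n (d i) H).card : ℝ)) / (H : ℝ) ^ s) := by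
    unfold bad
    have e1 := Finset.card_biUnion_le (s := (Finset.univ : Finset (Fin (n + 1))))
      (t := fun i0 => (Finset.Icc 1 B).biUnion fun b =>
        ((Bx n i0 b).filter (fun x => Prim x i0 b)).biUnion fun x =>
          Fintype.piFinset fun i => (FF n (d i) H).filter (fun F => eval x F = 0))
    refine (Nat.cast_le.2 e1).trans ?_
    rw [Nat.cast_sum]
    refine Finset.sum_le_sum fun i0 _ => ?_
    have e2 := Finset.card_biUnion_le (s := Finset.Icc 1 B)
      (t := fun b => ((Bx n i0 b).filter (fun x => Prim x i0 b)).biUnion fun x =>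
          Fintype.piFinset fun i => (FF n (d i) H).filter (fun F => eval x F = 0))
    refine (Nat.cast_le.2 e2).trans ?_
    rw [Nat.cast_sum]
    refine Finset.sum_le_sum fun b hb => ?_
    obtain ⟨hb1, hb2⟩ := Finset.mem_Icc.1 hb
    have e3 := Finset.card_biUnion_le (s := (Bx n i0 b).filter (fun x => Prim x i0 b))
      (t := fun x => Fintype.piFinset fun i => (FF n (d i) H).filter (fun F => eval x F = 0))
    refine (Nat.cast_le.2 e3).trans ?_
    rw [Nat.cast_sum]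
    have hμ : (0 : ℝ) < ((min b H : ℕ) : ℝ) := by exact_mod_cast lt_min hb1 hH
    have e4 : ∀ x ∈ (Bx n i0 b).filter (fun x => Prim x i0 b),
        ((Fintype.piFinset fun i => (FF n (d i) H).filter (fun F => eval x F = 0)).card : ℝ) ≤
        (∏ i, (cst n (d i) : ℝ)) * (∏ i, ((FF n (d i) H).card : ℝ)) / (H : ℝ) ^ s /
          ((min b H : ℕ) : ℝ) ^ (∑ i, d i) := by
      intro x hx
      have hx := (Finset.mem_filter.1 hx).2
      rw [Fintype.card_piFinset, Nat.cast_prod]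
      refine (Finset.prod_le_prod (fun i _ => Nat.cast_nonneg _)
        (fun i _ => count_real (d i) H hH x i0 b hx 0)).trans ?_
      rw [Finset.prod_div_distrib, Finset.prod_mul_distrib, Finset.prod_mul_distrib,
        Finset.prod_const, Finset.card_univ, Fintype.card_fin, Finset.prod_pow_eq_pow_sum,
        div_div]
    refine (Finset.sum_le_sum e4).trans ?_
    rw [Finset.sum_const, nsmul_eq_mul]
    have e5 : ((((Bx n i0 b).filter (fun x => Prim x i0 b)).card : ℕ) : ℝ) ≤ 2 * (3 * b) ^ n := by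
      have e6 := (Finset.card_filter_le (Bx n i0 b) (fun x => Prim x i0 b)).trans
        (card_Bx i0 b hb1)
      exact_mod_cast e6
    have e7 : 0 ≤ (∏ i, (cst n (d i) : ℝ)) * (∏ i, ((FF n (d i) H).card : ℝ)) / (H : ℝ) ^ s := by
      positivity
    calc _ ≤ (2 * (3 * b) ^ n : ℝ) * ((∏ i, (cst n (d i) : ℝ)) *
          (∏ i, ((FF n (d i) H).card : ℝ)) / (H : ℝ) ^ s /
          ((min b H : ℕ) : ℝ) ^ (∑ i, d i)) :=
          mul_le_mul_of_nonneg_right e5 (by positivity)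
      _ = _ := by ring
  refine h1.trans ?_
  rw [Finset.sum_const, Finset.card_univ, Fintype.card_fin, nsmul_eq_mul, ← Finset.sum_mul]
  have h2 := sum_points n (∑ i, d i) H B hd hH
  have h3 : 0 ≤ (∏ i, (cst n (d i) : ℝ)) * (∏ i, ((FF n (d i) H).card : ℝ)) / (H : ℝ) ^ s := by
    positivity
  calc _ ≤ ((n + 1 : ℕ) : ℝ) * ((4 * 3 ^ n * (1 + (B : ℝ) ^ (n + 1) / (H : ℝ) ^ (∑ i, d i))) *
        ((∏ i, (cst n (d i) : ℝ)) * (∏ i, ((FF n (d i) H).card : ℝ)) / (H : ℝ) ^ s)) :=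
        mul_le_mul_of_nonneg_left (mul_le_mul_of_nonneg_right h2 h3) (Nat.cast_nonneg _)
    _ = _ := by
        push_cast
        ring

end Pool.Agent.R870.RC
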