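import Mathlib
import Pool.Agent.R870.RC.Main

set_option autoImplicit false

/-! # Random complete intersections: lower bound, final form -/

namespace Pool.Agent.R870.RC

open MvPolynomial Finset

variable {n : ℕ}

/-- the first unit vector -/
def e0 (n : ℕ) : Fin (n + 1) → ℤ := fun i => if i = 0 then 1 else 0

theorem e0_zero (n : ℕ) : e0 n 0 = 1 := if_pos rfl

theorem e0_ne (n : ℕ) {i : Fin (n + 1)} (hi : i ≠ 0) : e0 n i = 0 := if_neg hi

/-- the value of a form at the first unit vector -/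
theorem eval_unit {d : ℕ} (F : MvPolynomial (Fin (n + 1)) ℤ) (hF : F.IsHomogeneous d) :
    eval (e0 n) F = F.coeff (Finsupp.single 0 d) := by
  classical
  rw [MvPolynomial.eval_eq', Finset.sum_eq_single (Finsupp.single 0 d)]
  · have h1 : ∏ i : Fin (n + 1), e0 n i ^
        (Finsupp.single (0 : Fin (n + 1)) d) i = 1 := by
      refine Finset.prod_eq_one fun i _ => ?_
      by_cases hi : i = 0
      · subst hi
        rw [e0_zero, one_pow]
      · rw [Finsupp.single_eq_of_ne hi, pow_zero]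
    rw [h1, mul_one]
  · intro m hm hne
    have h4 := hF (MvPolynomial.mem_support_iff.1 hm)
    have hsum : ∑ j, m j = d := by
      rw [← h4, Finsupp.weight_apply, Finsupp.sum_fintype _ _ (by simp)]
      simp
    obtain ⟨j, hj0, hj⟩ : ∃ j, j ≠ 0 ∧ m j ≠ 0 := by
      by_contra hno
      push Not at hno
      apply hne
      have h5 : m 0 = d := by
        rw [← hsum, Fin.sum_univ_succ, Finset.sum_eq_zero (fun i _ => hno _ (Fin.succ_ne_zero i)),
          add_zero]
      ext i
      by_cases hi : i = 0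
      · subst hi
        rw [Finsupp.single_eq_same, h5]
      · rw [Finsupp.single_eq_of_ne hi]
        exact hno i hi
    have h1 : ∏ i : Fin (n + 1), e0 n i ^ m i = 0 := by
      refine Finset.prod_eq_zero (Finset.mem_univ j) ?_
      rw [e0_ne n hj0]
      exact zero_pow hj
    rw [h1, mul_zero]
  · intro h
    rw [MvPolynomial.notMem_support_iff.1 h, zero_mul]

theorem low_one (d H : ℕ) (hH : 1 ≤ H) : ((FF n d H).card : ℝ) / (3 * H) ≤
    ((FF n d H).filter (fun F => eval (e0 n) F = 0)).card := by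
  classical
  have hHr : (1 : ℝ) ≤ H := by exact_mod_cast hH
  rw [div_le_iff₀ (by positivity)]
  have h1 : (FF n d H).card ≤ (((FF n d H).filter
      (fun F => eval (e0 n) F = 0)) ×ˢ
        Finset.Icc (-(H : ℤ)) H).card := by
    refine Finset.card_le_card_of_surjOn
      (fun p => p.1 + monomial (Finsupp.single 0 d) p.2) ?_
    intro F hF
    rw [Finset.mem_coe, mem_FF] at hF
    refine ⟨(F - monomial (Finsupp.single 0 d) (F.coeff (Finsupp.single 0 d)),
      F.coeff (Finsupp.single 0 d)), ?_, ?_⟩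
    · rw [Finset.mem_coe, Finset.mem_product, Finset.mem_filter, mem_FF, Finset.mem_Icc, ← abs_le]
      have hhom : (F - monomial (Finsupp.single 0 d) (F.coeff (Finsupp.single 0 d)) :
          MvPolynomial (Fin (n + 1)) ℤ).IsHomogeneous d :=
        hF.1.sub (isHomogeneous_monomial _ (by simp))
      refine ⟨⟨⟨hhom, fun m => ?_⟩, ?_⟩, hF.2 _⟩
      · rw [coeff_sub, coeff_monomial]
        by_cases h : Finsupp.single 0 d = m
        · rw [if_pos h, h, sub_self, abs_zero]
          exact Nat.cast_nonneg H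
        · rw [if_neg h, sub_zero]
          exact hF.2 m
      · rw [eval_unit _ hhom, coeff_sub, coeff_monomial, if_pos rfl, sub_self]
    · show F - monomial (Finsupp.single 0 d) (F.coeff (Finsupp.single 0 d)) +
        monomial (Finsupp.single 0 d) (F.coeff (Finsupp.single 0 d)) = F
      rw [sub_add_cancel]
  rw [Finset.card_product, Int.card_Icc] at h1
  have h2 : ((H : ℤ) + 1 - -(H : ℤ)).toNat ≤ 3 * H := by omega
  have h3 := h1.trans (Nat.mul_le_mul_left _ h2)
  have h4 : ((FF n d H).card : ℝ) ≤ ((((FF n d H).filter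
      (fun F => eval (e0 n) F = 0)).card * (3 * H) : ℕ) : ℝ) := by
    exact_mod_cast h3
  rw [Nat.cast_mul, Nat.cast_mul] at h4
  exact h4

theorem systems_eq {s : ℕ} (d : Fin s → ℕ) (H : ℕ) :
    Systems n d H = (Fintype.piFinset fun i => FF n (d i) H : Finset _) := by
  classical
  ext F
  rw [Finset.mem_coe, Fintype.mem_piFinset]
  exact forall_congr' fun i => (mem_FF _).symm

theorem card_Mo (n d : ℕ) : (Mo n d).card = (n + d).choose d := by
  unfold Mo
  rw [Finset.card_finsuppAntidiag_nat_eq_choose]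
  simp

theorem fin_systems {s : ℕ} (d : Fin s → ℕ) (H : ℕ) : (Systems n d H).Finite := by
  rw [systems_eq]
  exact Finset.finite_toSet _

theorem card_systems {s : ℕ} (d : Fin s → ℕ) (H : ℕ) :
    (Systems n d H).ncard = ∏ i, (FF n (d i) H).card := by
  classical
  rw [systems_eq, Set.ncard_coe_finset, Fintype.card_piFinset]

theorem fin_point {s : ℕ} (d : Fin s → ℕ) (H B : ℕ) : (WithPoint n d H B).Finite :=
  (fin_systems d H).subset fun _ hF => hF.1

/-- the systems vanishing at the first unit vector -/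
noncomputable def zz (n : ℕ) {s : ℕ} (d : Fin s → ℕ) (H : ℕ) :
    Finset (Fin s → MvPolynomial (Fin (n + 1)) ℤ) := by
  classical
  exact Fintype.piFinset fun i => (FF n (d i) H).filter (fun F => eval (e0 n) F = 0)

theorem zz_sub {s : ℕ} (d : Fin s → ℕ) (H B : ℕ) (hB : 1 ≤ B) :
    ((zz n d H : Finset _) : Set (Fin s → MvPolynomial (Fin (n + 1)) ℤ)) ⊆ WithPoint n d H B := by
  intro F hF
  unfold zz at hF
  rw [Finset.mem_coe, Fintype.mem_piFinset] at hF
  refine ⟨fun i => (mem_FF _).1 (Finset.mem_filter.1 (hF i)).1, e0 n, ?_, ?_, fun i =>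
    (Finset.mem_filter.1 (hF i)).2⟩
  · intro h
    have h' := congrFun h 0
    rw [e0_zero] at h'
    exact one_ne_zero h'
  · intro j
    by_cases hj : j = 0
    · rw [hj, e0_zero, abs_one]
      exact_mod_cast hB
    · rw [e0_ne n hj, abs_zero]
      exact Nat.cast_nonneg B

theorem low_sys {s : ℕ} (d : Fin s → ℕ) (H B : ℕ) (hH : 1 ≤ H) (hB : 1 ≤ B) :
    (1 / 3) ^ s / (H : ℝ) ^ s * ((Systems n d H).ncard : ℝ) ≤ ((WithPoint n d H B).ncard : ℝ) := by
  classical
  have hHr : (1 : ℝ) ≤ H := by exact_mod_cast hH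
  have h2 := Set.ncard_le_ncard (zz_sub (n := n) d H B hB) (fin_point d H B)
  rw [Set.ncard_coe_finset] at h2
  have h3 : ((zz n d H).card : ℝ) ≤ ((WithPoint n d H B).ncard : ℝ) := Nat.cast_le.2 h2
  refine le_trans ?_ h3
  have h5 : (zz n d H).card = ∏ i, ((FF n (d i) H).filter (fun F => eval (e0 n) F = 0)).card := by
    unfold zz
    rw [Fintype.card_piFinset]
  rw [h5, card_systems, Nat.cast_prod, Nat.cast_prod]
  have h4 : (1 / 3 : ℝ) ^ s / (H : ℝ) ^ s * ∏ i, ((FF n (d i) H).card : ℝ) =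
      ∏ i, (((FF n (d i) H).card : ℝ) / (3 * H)) := by
    rw [Finset.prod_div_distrib, Finset.prod_const, Finset.card_univ, Fintype.card_fin, mul_pow,
      one_div, inv_pow]
    ring
  rw [h4]
  exact Finset.prod_le_prod (fun i _ => div_nonneg (Nat.cast_nonneg _)
    (mul_nonneg (by norm_num) (Nat.cast_nonneg _))) (fun i _ => low_one (d i) H hH)

theorem up_sys {s : ℕ} (d : Fin s → ℕ) (hd : n + 2 ≤ ∑ i, d i) (H B : ℕ) (hH : 1 ≤ H) :
    ((WithPoint n d H B).ncard : ℝ) ≤ ((n + 1) * (4 * 3 ^ n) * ∏ i, (cst n (d i) : ℝ)) /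
      (H : ℝ) ^ s * (1 + (B : ℝ) ^ (n + 1) / (H : ℝ) ^ (∑ i, d i)) *
      ((Systems n d H).ncard : ℝ) := by
  classical
  have h1 : WithPoint n d H B ⊆ ((bad n d H B : Finset _) : Set _) := by
    rintro F ⟨hF, x, hx, hxB, h0⟩
    exact mem_bad d H B F hF x hx hxB h0
  have h2 := Set.ncard_le_ncard h1 (Finset.finite_toSet _)
  rw [Set.ncard_coe_finset] at h2
  have h3 : ((WithPoint n d H B).ncard : ℝ) ≤ ((bad n d H B).card : ℝ) := Nat.cast_le.2 h2
  refine h3.trans ((card_bad d hd H B hH).trans (le_of_eq ?_))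
  rw [card_systems, Nat.cast_prod]
  ring

/-- **Random complete intersections.** -/
theorem main (n s : ℕ) (d : Fin s → ℕ) (hd : n + 2 ≤ ∑ i, d i) :
    ∃ c C : ℝ, 0 < c ∧ ∀ H B : ℕ, 1 ≤ H → 1 ≤ B →
      (Systems n d H).Finite ∧
      (Systems n d H).ncard = (2 * H + 1) ^ (∑ i, (n + d i).choose (d i)) ∧
      c / (H : ℝ) ^ s * ((Systems n d H).ncard : ℝ) ≤ ((WithPoint n d H B).ncard : ℝ) ∧
      ((WithPoint n d H B).ncard : ℝ) ≤ C / (H : ℝ) ^ s *
        (1 + (B : ℝ) ^ (n + 1) / (H : ℝ) ^ (∑ i, d i)) * ((Systems n d H).ncard : ℝ) := by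
  refine ⟨(1 / 3) ^ s, (n + 1) * (4 * 3 ^ n) * ∏ i, (cst n (d i) : ℝ), by positivity,
    fun H B hH hB => ⟨fin_systems d H, ?_, low_sys d H B hH hB, up_sys d hd H B hH⟩⟩
  rw [card_systems, ← Finset.prod_pow_eq_pow_sum]
  refine Finset.prod_congr rfl fun i _ => ?_
  rw [card_FF, card_Mo]

end Pool.Agent.R870.RC
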