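import Mathlib
import Pool.Agent.R870.RC.Defs

set_option autoImplicit false

/-! # Random abelian covers of projective space: definitions -/

namespace Pool.Agent.R870.RC

open MvPolynomial

/-- the systems `(F_1, …, F_s)` of forms of degrees `k_i e_i` with integer coefficients of absolute
value at most `H` for which the cover `w_i ^ (k_i) = F_i (x)`, `i = 1, …, s`, of projective
`n`-space has a rational point over a point `x` of projective `n`-space of height at most `B` -/
def CoverPoint (n : ℕ) {s : ℕ} (k e : Fin s → ℕ) (H B : ℕ) :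
    Set (Fin s → MvPolynomial (Fin (n + 1)) ℤ) :=
  {F | F ∈ Systems n (fun i => k i * e i) H ∧ ∃ x : Fin (n + 1) → ℤ, x ≠ 0 ∧ (∀ j, |x j| ≤ B) ∧
    ∃ w : Fin s → ℚ, ∀ i, w i ^ k i = ((eval x (F i) : ℤ) : ℚ)}

end Pool.Agent.R870.RC
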