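import Mathlib
import Pool.Agent.R870.RC.Low
import Pool.Agent.R870.RC.CovDefs

set_option autoImplicit false

/-! # Random abelian covers of projective space: upper bound -/

namespace Pool.Agent.R870.RC

open MvPolynomial Finset

variable {n : ℕ}

/-- the trivial bound for the values -/
theorem abs_eval_le {d H : ℕ} {F : MvPolynomial (Fin (n + 1)) ℤ} (hF : F ∈ Forms n d H)
    (x : Fin (n + 1) → ℤ) (b : ℕ) (hx : ∀ i, |x i| ≤ b) :
    |eval x F| ≤ (((Mo n d).card * H * b ^ d : ℕ) : ℤ) := by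
  classical
  have hsub : F.support ⊆ Mo n d := by
    intro m hm
    rw [mem_Mo]
    have h3 := hF.1 (MvPolynomial.mem_support_iff.1 hm)
    rw [Finsupp.degree_eq_weight_one]
    exact h3
  rw [MvPolynomial.eval_eq']
  refine (Finset.abs_sum_le_sum_abs _ _).trans ?_
  have h1 : ∀ m ∈ F.support, |F.coeff m * ∏ i, x i ^ m i| ≤ ((H * b ^ d : ℕ) : ℤ) := by
    intro m hm
    rw [abs_mul, Finset.abs_prod]
    push_cast
    refine mul_le_mul (hF.2 m) ?_ (Finset.prod_nonneg fun _ _ => abs_nonneg _) (Nat.cast_nonneg H)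
    have h2 : ∑ j, m j = d := by
      have := (mem_Mo _).1 (hsub hm)
      rw [Finsupp.degree_eq_sum] at this
      exact this
    rw [← h2, ← Finset.prod_pow_eq_pow_sum]
    refine Finset.prod_le_prod (fun _ _ => abs_nonneg _) fun i _ => ?_
    rw [abs_pow]
    exact pow_le_pow_left₀ (abs_nonneg _) (hx i) _
  refine (Finset.sum_le_sum h1).trans ?_
  rw [Finset.sum_const, nsmul_eq_mul]
  push_cast
  have h4 : (F.support.card : ℤ) ≤ ((Mo n d).card : ℤ) := by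
    exact_mod_cast Finset.card_le_card hsub
  calc (F.support.card : ℤ) * ((H : ℤ) * (b : ℤ) ^ d) ≤ ((Mo n d).card : ℤ) * (H * (b : ℤ) ^ d) :=
        mul_le_mul_of_nonneg_right h4 (by positivity)
    _ = _ := by ring

/-- the forms whose value at `x` is a `k`-th power -/
noncomputable def PW (n k e H : ℕ) (x : Fin (n + 1) → ℤ) :
    Finset (MvPolynomial (Fin (n + 1)) ℤ) := by
  classical
  exact (FF n (k * e) H).filter (fun F => ∃ w : ℤ, w ^ k = eval x F)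

theorem mem_PW {k e H : ℕ} {x : Fin (n + 1) → ℤ} {F : MvPolynomial (Fin (n + 1)) ℤ} :
    F ∈ PW n k e H x ↔ F ∈ FF n (k * e) H ∧ ∃ w : ℤ, w ^ k = eval x F := by
  classical
  unfold PW
  exact Finset.mem_filter

/-- number of forms whose value at `x` is a `k`-th power -/
theorem card_pow (k e H : ℕ) (hk : 1 ≤ k) (hH : 1 ≤ H) (x : Fin (n + 1) → ℤ) (i0 : Fin (n + 1))
    (b : ℕ) (hx : Prim x i0 b) :
    ((PW n k e H x).card : ℝ) ≤
      (3 * (Mo n (k * e)).card * cst n (k * e)) * ((H : ℝ) ^ ((1 : ℝ) / k) / H) *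
        ((b : ℝ) ^ e / ((min b H : ℕ) : ℝ) ^ (k * e)) * (FF n (k * e) H).card := by
  classical
  have hHr : (1 : ℝ) ≤ H := by exact_mod_cast hH
  have hb1 : 1 ≤ b := hx.2.2.1
  have hbr : (1 : ℝ) ≤ b := by exact_mod_cast hb1
  have hk0 : (0 : ℝ) < k := by exact_mod_cast hk
  set N : ℕ := (Mo n (k * e)).card with hN
  have hN1 : 1 ≤ N := by
    rw [hN, card_Mo]
    exact Nat.choose_pos (by omega)
  have hNr : (1 : ℝ) ≤ N := by exact_mod_cast hN1
  -- the bound for `w`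
  set L : ℝ := N * (H : ℝ) ^ ((1 : ℝ) / k) * (b : ℝ) ^ e with hL
  have hH1 : (1 : ℝ) ≤ (H : ℝ) ^ ((1 : ℝ) / k) := Real.one_le_rpow hHr (by positivity)
  have hL1 : 1 ≤ L := by
    rw [hL]
    have h1 : (1 : ℝ) ≤ (b : ℝ) ^ e := one_le_pow₀ hbr
    have h2 : (1 : ℝ) ≤ N * (H : ℝ) ^ ((1 : ℝ) / k) := by nlinarith
    nlinarith
  have hpow : ((H : ℝ) ^ ((1 : ℝ) / k)) ^ k = H := by
    rw [← Real.rpow_natCast, ← Real.rpow_mul (by positivity), one_div, inv_mul_cancel₀ hk0.ne',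
      Real.rpow_one]
  have hw : ∀ F ∈ FF n (k * e) H, ∀ w : ℤ, w ^ k = eval x F →
      w ∈ Finset.Icc (-⌊L⌋) ⌊L⌋ := by
    intro F hF w hw
    have h1 := abs_eval_le ((mem_FF F).1 hF) x b hx.2.2.2
    rw [← hw, abs_pow] at h1
    rw [Finset.mem_Icc, ← abs_le, Int.le_floor]
    have h2 : ((|w| : ℤ) : ℝ) ^ k ≤ N * H * (b : ℝ) ^ (k * e) := by
      have h3 : ((|w| ^ k : ℤ) : ℝ) ≤ ((((Mo n (k * e)).card * H * b ^ (k * e) : ℕ) : ℤ) : ℝ) :=
        Int.cast_le.2 h1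
      push_cast at h3 ⊢
      exact h3
    have h4 : L ^ k = (N : ℝ) ^ k * H * (b : ℝ) ^ (k * e) := by
      rw [hL, mul_pow, mul_pow, hpow, ← pow_mul, mul_comm e k]
    have h5 : ((|w| : ℤ) : ℝ) ^ k ≤ L ^ k := by
      rw [h4]
      refine h2.trans ?_
      have h6 : (N : ℝ) ≤ (N : ℝ) ^ k := le_self_pow₀ hNr (by omega)
      refine mul_le_mul_of_nonneg_right ?_ (by positivity)
      exact mul_le_mul_of_nonneg_right h6 (by positivity)
    exact le_of_pow_le_pow_left₀ (by omega) (by linarith) h5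
  have hsub : PW n k e H x ⊆
      (Finset.Icc (-⌊L⌋) ⌊L⌋).biUnion
        fun w => (FF n (k * e) H).filter (fun F => eval x F = w ^ k) := by
    intro F hF
    obtain ⟨hF1, w, hw1⟩ := mem_PW.1 hF
    rw [Finset.mem_biUnion]
    exact ⟨w, hw F hF1 w hw1, Finset.mem_filter.2 ⟨hF1, hw1.symm⟩⟩
  have h1 : ((PW n k e H x).card : ℝ) ≤
      ∑ _w ∈ Finset.Icc (-⌊L⌋) ⌊L⌋,
        (cst n (k * e) * (FF n (k * e) H).card / (H * ((min b H : ℕ) : ℝ) ^ (k * e)) : ℝ) := by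
    refine (Nat.cast_le.2 ((Finset.card_le_card hsub).trans Finset.card_biUnion_le)).trans ?_
    rw [Nat.cast_sum]
    exact Finset.sum_le_sum fun w _ => count_real (k * e) H hH x i0 b hx (w ^ k)
  refine h1.trans ?_
  rw [Finset.sum_const, nsmul_eq_mul]
  have h2 : ((Finset.Icc (-⌊L⌋) ⌊L⌋).card : ℝ) ≤ 3 * L := by
    rw [Int.card_Icc]
    have h3 : (0 : ℤ) ≤ ⌊L⌋ := Int.floor_nonneg.2 (by linarith)
    have h4 : (((⌊L⌋ + 1 - -⌊L⌋).toNat : ℕ) : ℝ) = 2 * (⌊L⌋ : ℝ) + 1 := by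
      have h5 : (((⌊L⌋ + 1 - -⌊L⌋).toNat : ℕ) : ℤ) = 2 * ⌊L⌋ + 1 := by
        rw [Int.toNat_of_nonneg (by omega)]
        ring
      have h6 := congrArg (fun z : ℤ => (z : ℝ)) h5
      simp only [Int.cast_natCast, Int.cast_add, Int.cast_mul, Int.cast_one, Int.cast_ofNat] at h6
      exact h6
    rw [h4]
    have h5 : (⌊L⌋ : ℝ) ≤ L := Int.floor_le L
    linarith
  have hμ : (0 : ℝ) < ((min b H : ℕ) : ℝ) := by
    have : 1 ≤ min b H := le_min hb1 hH
    exact_mod_cast this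
  have h3 : (0 : ℝ) ≤ cst n (k * e) * ((FF n (k * e) H).card : ℝ) /
      (H * ((min b H : ℕ) : ℝ) ^ (k * e)) :=
    div_nonneg (mul_nonneg (Nat.cast_nonneg _) (Nat.cast_nonneg _)) (by positivity)
  refine (mul_le_mul_of_nonneg_right h2 h3).trans (le_of_eq ?_)
  rw [hL]
  field_simp

/-- the bad systems -/
noncomputable def badc (n : ℕ) {s : ℕ} (k e : Fin s → ℕ) (H B : ℕ) :
    Finset (Fin s → MvPolynomial (Fin (n + 1)) ℤ) := by
  classical
  exact (Finset.univ : Finset (Fin (n + 1))).biUnion fun i0 => (Finset.Icc 1 B).biUnion fun b =>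
    ((Bx n i0 b).filter (fun x => Prim x i0 b)).biUnion fun x =>
      Fintype.piFinset fun i => PW n (k i) (e i) H x

theorem eval_scale {d H : ℕ} {F : MvPolynomial (Fin (n + 1)) ℤ} (hF : F ∈ Forms n d H) (g : ℤ)
    (x y : Fin (n + 1) → ℤ) (hxy : ∀ j, x j = g * y j) : eval x F = g ^ d * eval y F := by
  have h2 : x = fun j => g * y j := funext hxy
  rw [h2, MvPolynomial.eval_eq', MvPolynomial.eval_eq', Finset.mul_sum]
  refine Finset.sum_congr rfl fun m hm => ?_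
  have h3 : ∑ j, m j = d := by
    have h4 := hF.1 (MvPolynomial.mem_support_iff.1 hm)
    rw [← h4, Finsupp.weight_apply, Finsupp.sum_fintype _ _ (by simp)]
    simp
  simp only [mul_pow, Finset.prod_mul_distrib, Finset.prod_pow_eq_pow_sum, h3]
  ring

theorem int_root (k : ℕ) (hk : 1 ≤ k) (w : ℚ) (t : ℤ) (h : w ^ k = t) : ∃ z : ℤ, z ^ k = t := by
  have h1 : IsIntegral ℤ w := by
    refine IsIntegral.of_pow (n := k) (by omega) ?_
    rw [h]
    exact isIntegral_algebraMap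
  obtain ⟨z, hz⟩ := IsIntegrallyClosed.isIntegral_iff.1 h1
  refine ⟨z, ?_⟩
  have h2 : ((z ^ k : ℤ) : ℚ) = (t : ℚ) := by
    rw [Int.cast_pow, ← h, ← hz]
    simp
  exact_mod_cast h2

theorem mem_badc {s : ℕ} (k e : Fin s → ℕ) (hk : ∀ i, 1 ≤ k i) (H B : ℕ)
    (F : Fin s → MvPolynomial (Fin (n + 1)) ℤ)
    (hF : ∀ i, F i ∈ Forms n (k i * e i) H) (x : Fin (n + 1) → ℤ) (hx : x ≠ 0)
    (hB : ∀ j, |x j| ≤ B) (w : Fin s → ℚ) (h0 : ∀ i, w i ^ k i = ((eval x (F i) : ℤ) : ℚ)) :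
    F ∈ badc n k e H B := by
  classical
  obtain ⟨g, y, i0, b, hg, hxy, hy, hb⟩ := exists_prim x hx B hB
  unfold badc
  simp only [Finset.mem_biUnion, Finset.mem_univ, true_and, Finset.mem_Icc, Finset.mem_filter,
    Fintype.mem_piFinset, mem_PW]
  refine ⟨i0, b, ⟨hy.2.2.1, hb⟩, y, ⟨mem_Bx hy, hy⟩, fun i => ⟨(mem_FF _).2 (hF i), ?_⟩⟩
  have h1 := eval_scale (hF i) g x y hxy
  have hgq : (g : ℚ) ≠ 0 := by exact_mod_cast hg
  refine int_root (k i) (hk i) (w i / (g : ℚ) ^ e i) _ ?_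
  rw [div_pow, h0 i, h1, ← pow_mul, mul_comm (e i) (k i)]
  push_cast
  field_simp

theorem card_badc_aux {s : ℕ} (k e : Fin s → ℕ) (H B : ℕ) (hH : 1 ≤ H)
    (hd : n + 2 + ∑ i, e i ≤ ∑ i, k i * e i) (A : ℝ) (hA0 : 0 ≤ A)
    (hA : ∀ (x : Fin (n + 1) → ℤ) (i0 : Fin (n + 1)) (b : ℕ), Prim x i0 b →
      ∏ i, ((PW n (k i) (e i) H x).card : ℝ) ≤
        A * ((b : ℝ) ^ (∑ i, e i) / ((min b H : ℕ) : ℝ) ^ (∑ i, k i * e i))) :
    ((badc n k e H B).card : ℝ) ≤ (n + 1) * (4 * 3 ^ (n + ∑ i, e i)) *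
      (1 + (B : ℝ) ^ (n + 1 + ∑ i, e i) / (H : ℝ) ^ (∑ i, k i * e i)) * A := by
  classical
  have h1 : ((badc n k e H B).card : ℝ) ≤ ∑ _i0 : Fin (n + 1), ∑ b ∈ Finset.Icc 1 B,
      (2 * (3 * b) ^ (n + ∑ i, e i) : ℝ) / ((min b H : ℕ) : ℝ) ^ (∑ i, k i * e i) * A := by
    unfold badc
    have e1 := Finset.card_biUnion_le (s := (Finset.univ : Finset (Fin (n + 1))))
      (t := fun i0 => (Finset.Icc 1 B).biUnion fun b =>
        ((Bx n i0 b).filter (fun x => Prim x i0 b)).biUnion fun x =>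
          Fintype.piFinset fun i => PW n (k i) (e i) H x)
    refine (Nat.cast_le.2 e1).trans ?_
    rw [Nat.cast_sum]
    refine Finset.sum_le_sum fun i0 _ => ?_
    have e2 := Finset.card_biUnion_le (s := Finset.Icc 1 B)
      (t := fun b => ((Bx n i0 b).filter (fun x => Prim x i0 b)).biUnion fun x =>
          Fintype.piFinset fun i => PW n (k i) (e i) H x)
    refine (Nat.cast_le.2 e2).trans ?_
    rw [Nat.cast_sum]
    refine Finset.sum_le_sum fun b hb => ?_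
    obtain ⟨hb1, hb2⟩ := Finset.mem_Icc.1 hb
    have hbr : (1 : ℝ) ≤ b := by exact_mod_cast hb1
    have e3 := Finset.card_biUnion_le (s := (Bx n i0 b).filter (fun x => Prim x i0 b))
      (t := fun x => Fintype.piFinset fun i => PW n (k i) (e i) H x)
    refine (Nat.cast_le.2 e3).trans ?_
    rw [Nat.cast_sum]
    have hμ : (0 : ℝ) < ((min b H : ℕ) : ℝ) := by exact_mod_cast lt_min hb1 hH
    have hμD : (0 : ℝ) < ((min b H : ℕ) : ℝ) ^ (∑ i, k i * e i) := pow_pos hμ _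
    have hbE : (0 : ℝ) ≤ (b : ℝ) ^ (∑ i, e i) := by positivity
    have e4 : ∀ x ∈ (Bx n i0 b).filter (fun x => Prim x i0 b),
        ((Fintype.piFinset fun i => PW n (k i) (e i) H x).card : ℝ) ≤
        A * ((b : ℝ) ^ (∑ i, e i) / ((min b H : ℕ) : ℝ) ^ (∑ i, k i * e i)) := by
      intro x hx
      have hx := (Finset.mem_filter.1 hx).2
      rw [Fintype.card_piFinset, Nat.cast_prod]
      exact hA x i0 b hx
    refine (Finset.sum_le_sum e4).trans ?_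
    rw [Finset.sum_const, nsmul_eq_mul]
    have e5 : ((((Bx n i0 b).filter (fun x => Prim x i0 b)).card : ℕ) : ℝ) ≤ 2 * (3 * b) ^ n := by
      have e6 := (Finset.card_filter_le (Bx n i0 b) (fun x => Prim x i0 b)).trans
        (card_Bx i0 b hb1)
      exact_mod_cast e6
    have e7 : (b : ℝ) ^ (∑ i, e i) ≤ (3 * b) ^ (∑ i, e i) :=
      pow_le_pow_left₀ (by positivity) (by linarith) _
    have e8 : (2 * (3 * b) ^ n : ℝ) * (b : ℝ) ^ (∑ i, e i) ≤ 2 * (3 * b) ^ (n + ∑ i, e i) := by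
      rw [pow_add, ← mul_assoc]
      exact mul_le_mul_of_nonneg_left e7 (by positivity)
    calc _ ≤ (2 * (3 * b) ^ n : ℝ) *
          (A * ((b : ℝ) ^ (∑ i, e i) / ((min b H : ℕ) : ℝ) ^ (∑ i, k i * e i))) :=
          mul_le_mul_of_nonneg_right e5 (mul_nonneg hA0 (div_nonneg hbE hμD.le))
      _ = ((2 * (3 * b) ^ n : ℝ) * (b : ℝ) ^ (∑ i, e i)) *
          (A / ((min b H : ℕ) : ℝ) ^ (∑ i, k i * e i)) := by ring
      _ ≤ (2 * (3 * b) ^ (n + ∑ i, e i)) * (A / ((min b H : ℕ) : ℝ) ^ (∑ i, k i * e i)) :=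
          mul_le_mul_of_nonneg_right e8 (div_nonneg hA0 hμD.le)
      _ = _ := by ring
  refine h1.trans ?_
  rw [Finset.sum_const, Finset.card_univ, Fintype.card_fin, nsmul_eq_mul, ← Finset.sum_mul]
  have h2 := sum_points (n + ∑ i, e i) (∑ i, k i * e i) H B (by omega) hH
  calc _ ≤ ((n + 1 : ℕ) : ℝ) * ((4 * 3 ^ (n + ∑ i, e i) *
        (1 + (B : ℝ) ^ (n + ∑ i, e i + 1) / (H : ℝ) ^ (∑ i, k i * e i))) * A) :=
        mul_le_mul_of_nonneg_left (mul_le_mul_of_nonneg_right h2 hA0) (Nat.cast_nonneg _)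
    _ = _ := by
        rw [show n + ∑ i, e i + 1 = n + 1 + ∑ i, e i by ring]
        push_cast
        ring

/-- the constant -/
noncomputable def cov (n : ℕ) {s : ℕ} (k e : Fin s → ℕ) : ℝ :=
  ∏ i, (3 * (Mo n (k i * e i)).card * cst n (k i * e i) : ℝ)

theorem prod_PW {s : ℕ} (k e : Fin s → ℕ) (hk : ∀ i, 1 ≤ k i) (H : ℕ) (hH : 1 ≤ H)
    (x : Fin (n + 1) → ℤ) (i0 : Fin (n + 1)) (b : ℕ) (hx : Prim x i0 b) :
    ∏ i, ((PW n (k i) (e i) H x).card : ℝ) ≤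
      cov n k e * (∏ i, ((H : ℝ) ^ ((1 : ℝ) / k i) / H)) * (∏ i, ((FF n (k i * e i) H).card : ℝ)) *
        ((b : ℝ) ^ (∑ i, e i) / ((min b H : ℕ) : ℝ) ^ (∑ i, k i * e i)) := by
  refine (Finset.prod_le_prod (fun i _ => Nat.cast_nonneg _)
    (fun i _ => card_pow (k i) (e i) H (hk i) hH x i0 b hx)).trans (le_of_eq ?_)
  rw [Finset.prod_mul_distrib, Finset.prod_mul_distrib, Finset.prod_mul_distrib,
    Finset.prod_div_distrib (f := fun i => (b : ℝ) ^ e i), Finset.prod_pow_eq_pow_sum,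
    Finset.prod_pow_eq_pow_sum]
  unfold cov
  ring

theorem card_badc {s : ℕ} (k e : Fin s → ℕ) (hk : ∀ i, 1 ≤ k i)
    (hd : n + 2 + ∑ i, e i ≤ ∑ i, k i * e i) (H B : ℕ) (hH : 1 ≤ H) :
    ((badc n k e H B).card : ℝ) ≤ (n + 1) * (4 * 3 ^ (n + ∑ i, e i)) *
      (1 + (B : ℝ) ^ (n + 1 + ∑ i, e i) / (H : ℝ) ^ (∑ i, k i * e i)) *
      (cov n k e * (∏ i, ((H : ℝ) ^ ((1 : ℝ) / k i) / H)) *
        (∏ i, ((FF n (k i * e i) H).card : ℝ))) := by
  refine card_badc_aux k e H B hH hd _ ?_ (fun x i0 b hx => prod_PW k e hk H hH x i0 b hx)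
  refine mul_nonneg (mul_nonneg (Finset.prod_nonneg fun i _ =>
    mul_nonneg (mul_nonneg (by norm_num) (Nat.cast_nonneg _)) (Nat.cast_nonneg _))
    (Finset.prod_nonneg fun i _ => div_nonneg (Real.rpow_nonneg (Nat.cast_nonneg _) _)
      (Nat.cast_nonneg _)))
    (Finset.prod_nonneg fun i _ => Nat.cast_nonneg _)

end Pool.Agent.R870.RC
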