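import Mathlib
import Pool.Agent.R870.RC.Cov

set_option autoImplicit false

/-! # Random abelian covers of projective space: lower bound, final form -/

namespace Pool.Agent.R870.RC

open MvPolynomial Finset

variable {n : ℕ}

theorem low_pow (k e H : ℕ) (hk : 1 ≤ k) (hH : 1 ≤ H) :
    (1 / 3 : ℝ) * ((H : ℝ) ^ ((1 : ℝ) / k) / H) * ((FF n (k * e) H).card : ℝ) ≤
      ((PW n k e H (e0 n)).card : ℝ) := by
  classical
  have hHr : (1 : ℝ) ≤ H := by exact_mod_cast hH
  have hk0 : (0 : ℝ) < k := by exact_mod_cast hk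
  have hpow : ((H : ℝ) ^ ((1 : ℝ) / k)) ^ k = H := by
    rw [← Real.rpow_natCast, ← Real.rpow_mul (by positivity), one_div, inv_mul_cancel₀ hk0.ne',
      Real.rpow_one]
  set L : ℝ := (H : ℝ) ^ ((1 : ℝ) / k) with hL
  have hL0 : 0 ≤ L := Real.rpow_nonneg (by linarith) _
  have h1 : (((FF n (k * e) H).filter (fun F => eval (e0 n) F = 0)) ×ˢ
      Finset.range (⌊L⌋₊ + 1)).card ≤ (PW n k e H (e0 n)).card := by
    refine Finset.card_le_card_of_injOn
      (fun p => p.1 + monomial (Finsupp.single 0 (k * e)) ((p.2 : ℤ) ^ k)) ?_ ?_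
    · rintro ⟨F, w⟩ hp
      rw [Finset.mem_coe, Finset.mem_product, Finset.mem_filter, mem_FF, Finset.mem_range] at hp
      obtain ⟨⟨hF, hF0⟩, hw⟩ := hp
      have hw : w < ⌊L⌋₊ + 1 := hw
      have hF : F ∈ Forms n (k * e) H := hF
      have hF0 : eval (e0 n) F = 0 := hF0
      have hwL : (w : ℝ) ≤ L := (Nat.le_floor_iff hL0).1 (by omega)
      have hwH : |(w : ℤ) ^ k| ≤ (H : ℤ) := by
        rw [abs_of_nonneg (by positivity)]
        have h2 : (w : ℝ) ^ k ≤ H := by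
          rw [← hpow]
          exact pow_le_pow_left₀ (by positivity) hwL k
        exact_mod_cast h2
      have hc0 : F.coeff (Finsupp.single 0 (k * e)) = 0 := by
        rw [← eval_unit F hF.1]
        exact hF0
      have hmon := forms_monomial (n := n) (d := k * e) (H := H) (Finsupp.single 0 (k * e))
        (Finsupp.degree_single _ _) ((w : ℤ) ^ k) hwH
      rw [Finset.mem_coe, mem_PW, mem_FF]
      refine ⟨⟨hF.1.add hmon.1, fun m => ?_⟩, (w : ℤ), ?_⟩
      · rw [coeff_add, coeff_monomial]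
        by_cases h : Finsupp.single 0 (k * e) = m
        · rw [if_pos h, ← h, hc0, zero_add]
          exact hwH
        · rw [if_neg h, add_zero]
          exact hF.2 m
      · show (w : ℤ) ^ k = eval (e0 n) (F + monomial (Finsupp.single 0 (k * e)) ((w : ℤ) ^ k))
        rw [map_add, hF0, zero_add, eval_unit _ hmon.1, coeff_monomial, if_pos rfl]
    · rintro ⟨F, w⟩ hp ⟨F', w'⟩ hp' h
      rw [Finset.mem_coe, Finset.mem_product, Finset.mem_filter] at hp hp'
      have hF0 : eval (e0 n) F = 0 := hp.1.2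
      have hF0' : eval (e0 n) F' = 0 := hp'.1.2
      have h : F + monomial (Finsupp.single 0 (k * e)) ((w : ℤ) ^ k) =
        F' + monomial (Finsupp.single 0 (k * e)) ((w' : ℤ) ^ k) := h
      have h2 := congrArg (eval (e0 n)) h
      have hm : ∀ t : ℤ, eval (e0 n) (monomial (Finsupp.single 0 (k * e)) t) = t := by
        intro t
        rw [eval_unit (d := k * e) _ (isHomogeneous_monomial _ (Finsupp.degree_single _ _)),
          coeff_monomial,
          if_pos rfl]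
      rw [map_add, map_add, hF0, hF0', hm, hm, zero_add, zero_add] at h2
      have h3 : w ^ k = w' ^ k := by exact_mod_cast h2
      have h4 : w = w' := Nat.pow_left_injective (by omega) h3
      subst h4
      rw [add_right_cancel h]
  rw [Finset.card_product, Finset.card_range] at h1
  have h2 : ((((FF n (k * e) H).filter (fun F => eval (e0 n) F = 0)).card : ℕ) : ℝ) *
      ((⌊L⌋₊ : ℝ) + 1) ≤ ((PW n k e H (e0 n)).card : ℝ) := by exact_mod_cast h1
  refine le_trans ?_ h2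
  have h3 := low_one (n := n) (k * e) H hH
  have h4 : L ≤ (⌊L⌋₊ : ℝ) + 1 := (Nat.lt_floor_add_one L).le
  have h5 : (0 : ℝ) ≤ ((FF n (k * e) H).card : ℝ) := Nat.cast_nonneg _
  have h6 : (0 : ℝ) ≤ ((FF n (k * e) H).card : ℝ) / (3 * H) :=
    div_nonneg h5 (by linarith)
  calc (1 / 3 : ℝ) * (L / H) * ((FF n (k * e) H).card : ℝ)
      = ((FF n (k * e) H).card : ℝ) / (3 * H) * L := by
        have : (H : ℝ) ≠ 0 := by linarith
        field_simp
    _ ≤ ((FF n (k * e) H).card : ℝ) / (3 * H) * ((⌊L⌋₊ : ℝ) + 1) :=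
        mul_le_mul_of_nonneg_left h4 h6
    _ ≤ _ := mul_le_mul_of_nonneg_right h3 (by
        have h7 : (0 : ℝ) ≤ (⌊L⌋₊ : ℝ) := Nat.cast_nonneg _
        linarith)

theorem fin_cover {s : ℕ} (k e : Fin s → ℕ) (H B : ℕ) : (CoverPoint n k e H B).Finite :=
  (fin_systems (n := n) (fun i => k i * e i) H).subset fun _ hF => hF.1

theorem rpow_prod {s : ℕ} (k : Fin s → ℕ) (H : ℕ) (hH : 1 ≤ H) :
    ∏ i, ((H : ℝ) ^ ((1 : ℝ) / k i) / H) = (H : ℝ) ^ (-∑ i, (1 - 1 / (k i : ℝ))) := by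
  have hHr : (0 : ℝ) < H := by exact_mod_cast hH
  rw [← Finset.sum_neg_distrib, Real.rpow_sum_of_pos hHr]
  refine Finset.prod_congr rfl fun i _ => ?_
  rw [neg_sub, Real.rpow_sub hHr, Real.rpow_one]

/-- the systems of the lower bound -/
noncomputable def zc (n : ℕ) {s : ℕ} (k e : Fin s → ℕ) (H : ℕ) :
    Finset (Fin s → MvPolynomial (Fin (n + 1)) ℤ) := by
  classical
  exact Fintype.piFinset fun i => PW n (k i) (e i) H (e0 n)

theorem zc_sub {s : ℕ} (k e : Fin s → ℕ) (H B : ℕ) (hB : 1 ≤ B) :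
    ((zc n k e H : Finset _) : Set (Fin s → MvPolynomial (Fin (n + 1)) ℤ)) ⊆
      CoverPoint n k e H B := by
  intro F hF
  unfold zc at hF
  rw [Finset.mem_coe, Fintype.mem_piFinset] at hF
  have hw : ∀ i, ∃ w : ℤ, w ^ k i = eval (e0 n) (F i) := fun i => (mem_PW.1 (hF i)).2
  choose w hw using hw
  refine ⟨fun i => (mem_FF _).1 (mem_PW.1 (hF i)).1, e0 n, ?_, ?_, fun i => (w i : ℚ),
    fun i => ?_⟩
  · intro h
    have h' := congrFun h 0
    rw [e0_zero] at h'
    exact one_ne_zero h'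
  · intro j
    by_cases hj : j = 0
    · rw [hj, e0_zero, abs_one]
      exact_mod_cast hB
    · rw [e0_ne n hj, abs_zero]
      exact Nat.cast_nonneg B
  · rw [← hw i, Int.cast_pow]

theorem low_cover {s : ℕ} (k e : Fin s → ℕ) (hk : ∀ i, 1 ≤ k i) (H B : ℕ) (hH : 1 ≤ H)
    (hB : 1 ≤ B) :
    (1 / 3) ^ s * (H : ℝ) ^ (-∑ i, (1 - 1 / (k i : ℝ))) *
      ((Systems n (fun i => k i * e i) H).ncard : ℝ) ≤ ((CoverPoint n k e H B).ncard : ℝ) := by
  classical
  have h2 := Set.ncard_le_ncard (zc_sub (n := n) k e H B hB) (fin_cover k e H B)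
  rw [Set.ncard_coe_finset] at h2
  have h3 : ((zc n k e H).card : ℝ) ≤ ((CoverPoint n k e H B).ncard : ℝ) := Nat.cast_le.2 h2
  refine le_trans ?_ h3
  have h5 : (zc n k e H).card = ∏ i, (PW n (k i) (e i) H (e0 n)).card := by
    unfold zc
    rw [Fintype.card_piFinset]
  rw [h5, card_systems, Nat.cast_prod, Nat.cast_prod, ← rpow_prod k H hH]
  have h4 : (1 / 3 : ℝ) ^ s * (∏ i, ((H : ℝ) ^ ((1 : ℝ) / k i) / H)) *
      ∏ i, ((FF n (k i * e i) H).card : ℝ) =
      ∏ i, ((1 / 3 : ℝ) * ((H : ℝ) ^ ((1 : ℝ) / k i) / H) * ((FF n (k i * e i) H).card : ℝ)) := by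
    rw [Finset.prod_mul_distrib, Finset.prod_mul_distrib, Finset.prod_const, Finset.card_univ,
      Fintype.card_fin]
  rw [h4]
  exact Finset.prod_le_prod (fun i _ => mul_nonneg (mul_nonneg (by norm_num)
    (div_nonneg (Real.rpow_nonneg (Nat.cast_nonneg _) _) (Nat.cast_nonneg _)))
    (Nat.cast_nonneg _)) (fun i _ => low_pow (k i) (e i) H (hk i) hH)

theorem up_cover {s : ℕ} (k e : Fin s → ℕ) (hk : ∀ i, 1 ≤ k i)
    (hd : n + 2 + ∑ i, e i ≤ ∑ i, k i * e i) (H B : ℕ) (hH : 1 ≤ H) :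
    ((CoverPoint n k e H B).ncard : ℝ) ≤ ((n + 1) * (4 * 3 ^ (n + ∑ i, e i)) * cov n k e) *
      (H : ℝ) ^ (-∑ i, (1 - 1 / (k i : ℝ))) *
      (1 + (B : ℝ) ^ (n + 1 + ∑ i, e i) / (H : ℝ) ^ (∑ i, k i * e i)) *
      ((Systems n (fun i => k i * e i) H).ncard : ℝ) := by
  classical
  have h1 : CoverPoint n k e H B ⊆ ((badc n k e H B : Finset _) : Set _) := by
    rintro F ⟨hF, x, hx, hxB, w, h0⟩
    exact mem_badc k e hk H B F hF x hx hxB w h0
  have h2 := Set.ncard_le_ncard h1 (Finset.finite_toSet _)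
  rw [Set.ncard_coe_finset] at h2
  have h3 : ((CoverPoint n k e H B).ncard : ℝ) ≤ ((badc n k e H B).card : ℝ) := Nat.cast_le.2 h2
  refine h3.trans ((card_badc k e hk hd H B hH).trans (le_of_eq ?_))
  rw [card_systems, Nat.cast_prod, rpow_prod k H hH]
  ring

/-- **Random abelian covers of projective space.** -/
theorem covers (n s : ℕ) (k e : Fin s → ℕ) (hk : ∀ i, 1 ≤ k i)
    (hd : n + 2 ≤ ∑ i, (k i - 1) * e i) :
    ∃ c C : ℝ, 0 < c ∧ ∀ H B : ℕ, 1 ≤ H → 1 ≤ B →
      (Systems n (fun i => k i * e i) H).Finite ∧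
      (Systems n (fun i => k i * e i) H).ncard =
        (2 * H + 1) ^ (∑ i, (n + k i * e i).choose (k i * e i)) ∧
      c * (H : ℝ) ^ (-∑ i, (1 - 1 / (k i : ℝ))) *
        ((Systems n (fun i => k i * e i) H).ncard : ℝ) ≤ ((CoverPoint n k e H B).ncard : ℝ) ∧
      ((CoverPoint n k e H B).ncard : ℝ) ≤ C * (H : ℝ) ^ (-∑ i, (1 - 1 / (k i : ℝ))) *
        (1 + (B : ℝ) ^ (n + 1 + ∑ i, e i) / (H : ℝ) ^ (∑ i, k i * e i)) *
        ((Systems n (fun i => k i * e i) H).ncard : ℝ) := by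
  have hd' : n + 2 + ∑ i, e i ≤ ∑ i, k i * e i := by
    have h1 : ∑ i, k i * e i = ∑ i, (k i - 1) * e i + ∑ i, e i := by
      rw [← Finset.sum_add_distrib]
      refine Finset.sum_congr rfl fun i _ => ?_
      have h2 : k i = (k i - 1) + 1 := by have := hk i; omega
      conv_lhs => rw [h2]
      ring
    omega
  refine ⟨(1 / 3) ^ s, (n + 1) * (4 * 3 ^ (n + ∑ i, e i)) * cov n k e, by positivity,
    fun H B hH hB => ⟨fin_systems _ H, ?_, low_cover k e hk H B hH hB,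
      up_cover k e hk hd' H B hH⟩⟩
  rw [card_systems, ← Finset.prod_pow_eq_pow_sum]
  refine Finset.prod_congr rfl fun i _ => ?_
  rw [card_FF, card_Mo]

end Pool.Agent.R870.RC
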